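import Pool.Agent.U133.WR.Grp

set_option autoImplicit false

/-!
# Integral points of Weierstrass curves in one coset of `2 E(ℚ)`: an explicit cubic repulsion

Let `E : y ^ 2 = x ^ 3 + A x + B`, `D = 4 A ^ 3 + 27 B ^ 2 ≠ 0` and `z(t) = 16 t / (3 |D|)`. If `X` is at
least eight times as large as `√|A|` and `∛|B|`, and `z(Y) < z(X) ^ 3`, that is,
`9 D ^ 2 Y < 256 X ^ 3`, then at most four integers in `[X, Y]` are abscissas of integral points in the same
coset of `2 E(ℚ)`. By iteration there are at most `4 n` of them if `z(Y) < z(X) ^ (3 ^ n)`. The Hall-Lang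
conjecture says that there are no integral points with `x` larger than a power of `max |A| |B|`; beyond
`|D| ^ (1 + ε)` the abscissas in one coset grow doubly exponentially, with the
exponent three after four points.

The first part is more general: two integers `x`, `y` are in the same class if `b (x - T)(y - T)` is a
square in `ℚ[T]/(T ^ 3 + A T + B)` for some rational `b ≠ 0`. This is so for the integral abscissas of points
of any quadratic twist of `E` in one coset.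
-/

namespace Pool.Agent.Results.MP_a1107e_nt.CosetRepulsion

open Polynomial Pool.Agent.U133.WR

/-- the elliptic curve `y ^ 2 = x ^ 3 + A x + B` over `ℚ` -/
def curve (A B : ℤ) : WeierstrassCurve.Affine ℚ := ⟨0, 0, 0, A, B⟩

/-- `b (x - T)(y - T)` is a square modulo `T ^ 3 + A T + B` for some rational `b ≠ 0` -/
def SameClass (A B x y : ℤ) : Prop :=
  ∃ b : ℚ, b ≠ 0 ∧ ∃ P : ℚ[X], (X ^ 3 + C (A : ℚ) * X + C (B : ℚ)) ∣
    P ^ 2 - C b * ((C (x : ℚ) - X) * (C (y : ℚ) - X))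

/-- **Explicit repulsion in a class, and in the cosets of `2 E(ℚ)`.** -/
theorem result (A B : ℤ) (hD : 4 * A ^ 3 + 27 * B ^ 2 ≠ 0) (X Y : ℝ) (hX : 0 < X)
    (hA : 64 * |(A : ℝ)| ≤ X ^ 2) (hB : 512 * |(B : ℝ)| ≤ X ^ 3) (n : ℕ)
    (hY : 16 * Y / (3 * |((4 * A ^ 3 + 27 * B ^ 2 : ℤ) : ℝ)|) <
      (16 * X / (3 * |((4 * A ^ 3 + 27 * B ^ 2 : ℤ) : ℝ)|)) ^ (3 ^ n)) :
    -- (1) one class
    (∀ S : Finset ℤ, (∀ x ∈ S, X ≤ (x : ℝ) ∧ (x : ℝ) ≤ Y) →
      (∀ x ∈ S, ∀ y ∈ S, SameClass A B x y) → S.card ≤ 4 * n) ∧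
    -- (2) all cosets of `2 E(ℚ)`
    (∀ (N : ℕ) (Q : Fin N → (curve A B).Point),
      (∀ P : (curve A B).Point, ∃ i R, P = Q i + (R + R)) →
      {x : ℤ | X ≤ (x : ℝ) ∧ (x : ℝ) ≤ Y ∧ ∃ y : ℤ, y ^ 2 = x ^ 3 + A * x + B}.ncard ≤
        4 * n * N) := by
  constructor
  · intro S hS hcl
    have hw : (0 : ℝ) ≤ X / 8 := by positivity
    refine growth hD hw (by linarith [show (X / 8) ^ 2 = X ^ 2 / 64 by ring])
      (by linarith [show (X / 8) ^ 3 = X ^ 3 / 512 by ring]) Y n X hX (by linarith) hY S hS ?_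
    intro x hx y hy
    obtain ⟨b, hb, P, hP⟩ := hcl x hx y hy
    exact ⟨b, hb, P, by rw [cub_map]; exact hP⟩
  · intro N Q hQ
    set M : Set ℤ := {x : ℤ | X ≤ (x : ℝ) ∧ (x : ℝ) ≤ Y ∧ ∃ y : ℤ, y ^ 2 = x ^ 3 + A * x + B}
      with hM
    by_cases hfin : M.Finite
    · rw [Set.ncard_eq_toFinset_card M hfin]
      exact all hD X Y hX hA hB n hY N Q hQ _ (fun x hx => (hfin.mem_toFinset.mp hx))
    · rw [Set.Infinite.ncard hfin]
      exact Nat.zero_le _

end Pool.Agent.Results.MP_a1107e_nt.CosetRepulsion
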